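import Pool.Agent.N325.FC.Stm

/-! # FC/MAP: the distribution function of a compact set of the line -/

set_option autoImplicit false
open Filter Topology MeasureTheory Set
open scoped ENNReal

namespace N861.FC

/-- the distribution function -/
noncomputable def Fn (K : Set ℝ) (t : ℝ) : ℝ := (volume (K ∩ Iic t)).toReal

lemma fin {K : Set ℝ} (hK : IsCompact K) (s : Set ℝ) : volume (K ∩ s) ≠ ∞ :=
  ((measure_mono inter_subset_left).trans_lt hK.measure_lt_top).ne

lemma step {K : Set ℝ} (hK : IsCompact K) {a b : ℝ} (hab : a ≤ b) :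
    Fn K a ≤ Fn K b ∧ Fn K b ≤ Fn K a + (b - a) := by
  constructor
  · exact ENNReal.toReal_mono (fin hK _)
      (measure_mono (inter_subset_inter_right _ (Iic_subset_Iic.2 hab)))
  · have h1 : volume (K ∩ Iic b) ≤ volume (K ∩ Iic a) + volume (Ioc a b) := by
      refine (measure_mono ?_).trans (measure_union_le _ _)
      rintro x ⟨hx, hxb⟩
      by_cases h : x ≤ a
      · exact Or.inl ⟨hx, h⟩
      · exact Or.inr ⟨not_le.1 h, hxb⟩
    rw [Real.volume_Ioc] at h1
    have h2 := ENNReal.toReal_mono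
      (ENNReal.add_ne_top.2 ⟨fin hK _, ENNReal.ofReal_ne_top⟩) h1
    rw [ENNReal.toReal_add (fin hK _) ENNReal.ofReal_ne_top,
      ENNReal.toReal_ofReal (by linarith)] at h2
    exact h2

theorem map : Pool.Agent.N325.FC.StmMAP := by
  intro K hK hne
  have hL : ∀ a b : ℝ, |Fn K a - Fn K b| ≤ |a - b| := by
    intro a b
    rcases le_total a b with h | h
    · obtain ⟨h1, h2⟩ := step hK h
      rw [abs_of_nonpos (by linarith), abs_of_nonpos (by linarith)]
      linarith
    · obtain ⟨h1, h2⟩ := step hK h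
      rw [abs_of_nonneg (by linarith), abs_of_nonneg (by linarith)]
      linarith
  refine ⟨Fn K, hL, ?_⟩
  have hc : Continuous (Fn K) := by
    have : LipschitzWith 1 (Fn K) := LipschitzWith.of_dist_le_mul fun a b => by
      rw [Real.dist_eq, Real.dist_eq]
      simpa using hL a b
    exact this.continuous
  intro z hz
  obtain ⟨mi, hmi⟩ := hK.exists_isLeast hne
  obtain ⟨ma, hma⟩ := hK.exists_isGreatest hne
  have h1 : Fn K mi = 0 := by
    have h0 : K ∩ Iic mi ⊆ {mi} := by
      rintro x ⟨hx, hxm⟩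
      exact le_antisymm hxm (hmi.2 hx)
    have h2 : volume (K ∩ Iic mi) = 0 :=
      measure_mono_null h0 (by simp)
    rw [Fn, h2]; rfl
  have h2 : Fn K ma = (volume K).toReal := by
    have h0 : K ∩ Iic ma = K := inter_eq_left.2 (fun x hx => mem_Iic.2 (hma.2 hx))
    rw [Fn, h0]
  have h3 : mi ≤ ma := hmi.2 hma.1
  obtain ⟨t, ht, htz⟩ := intermediate_value_Icc h3 hc.continuousOn (by rw [h1, h2]; exact hz)
  obtain ⟨y, hy⟩ := (hK.inter_right isClosed_Iic : IsCompact (K ∩ Iic t)).exists_isGreatest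
    ⟨mi, hmi.1, ht.1⟩
  refine ⟨y, hy.1.1, ?_⟩
  have h4 : K ∩ Iic y = K ∩ Iic t := by
    apply Subset.antisymm
    · exact inter_subset_inter_right _ (Iic_subset_Iic.2 hy.1.2)
    · rintro x hx
      exact ⟨hx.1, hy.2 hx⟩
  rw [Fn, h4]
  exact htz

end N861.FC
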